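import Pool.Agent.K7.H90.ABG.FreeAlt2

/-!
# The homology of `ABG(Alt(V))`, `dim V = 4`, contains a trivial or an adjoint component

* `AbgLie k A` is the vector space `sl₃ ⊗ A ⊕ B(A)`, with `S3 k` the trace-zero `3 × 3` matrices and
  `BB k A = B(A)`;
* `FreeAlt k X` is the free non-unital alternative algebra on the set `X`;
* `dd p q r = D_{p,q}(r)`.

The Lie bracket of `ABG(A)`, the Chevalley–Eilenberg differential and the action of `sl₃` on the
chains are given by the formulas that determine them.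
-/

namespace Pool.Agent.Results.MP_894cc0_al.TrivialOrAdjoint

set_option linter.unusedSectionVars false

open Pool.Agent.K7.H90.ABG

open scoped TensorProduct

section Linear

variable (k : Type*) {U V W : Type*} [Field k] [AddCommGroup U] [Module k U] [AddCommGroup V]
  [Module k V] [AddCommGroup W] [Module k W]

/-- `f` is linear. -/
structure IsLin (f : V → W) : Prop where
  add : ∀ x y, f (x + y) = f x + f y
  smul : ∀ (c : k) x, f (c • x) = c • f x

/-- `f` is bilinear. -/
structure IsBilin (f : U → V → W) : Prop where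
  left : ∀ y, IsLin k (fun x => f x y)
  right : ∀ x, IsLin k (f x)

end Linear

section Bracket

variable (k A : Type*) [Field k] [CharZero k] [NonUnitalNonAssocRing A] [Module k A]

/-- The element `X ⊗ p` of `ABG(A)`. -/
noncomputable def tm (X : S3 k) (p : A) : AbgLie k A := (X ⊗ₜ[k] p, 0)

/-- The element `p ∧ q` of `ABG(A)`. -/
noncomputable def we (p q : A) : AbgLie k A := (0, wd k A p q)

/-- The Jordan product `p · q = ½ (pq + qp)`. -/
def jor (p q : A) : A := (1 / 2 : k) • (p * q + q * p)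

/-- `⅓ tr(XY)`. -/
def trd (X Y : S3 k) : k := 1 / 3 * Matrix.trace (X.val * Y.val)

/-- `br` is the bracket of the Allison–Benkart–Gao Lie algebra of `A`. The last three fields
determine it, because it is bilinear and alternating. -/
structure IsAbgBracket (br : AbgLie k A → AbgLie k A → AbgLie k A) : Prop where
  bilin : IsBilin k br
  alternating : ∀ x, br x x = 0
  jacobi : ∀ x y z, br x (br y z) = br (br x y) z + br y (br x z)
  tm_tm : ∀ X Y p q, br (tm k A X p) (tm k A Y q) =
    tm k A (X.comm Y) (jor k A p q) + tm k A (X.anti Y) (p * q - q * p) + trd k X Y • we k A p q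
  we_tm : ∀ p q X r, br (we k A p q) (tm k A X r) = tm k A X (dd p q r)
  we_we : ∀ p q r s, br (we k A p q) (we k A r s) = we k A (dd p q r) s + we k A r (dd p q s)

/-- `ρ` is the action of `sl₃` on `ABG(A)`: adjoint on the tensor factor `sl₃`, zero on `B(A)`. -/
structure IsSlAct (ρ : S3 k → AbgLie k A → AbgLie k A) : Prop where
  lin : ∀ X, IsLin k (ρ X)
  on_tm : ∀ X Y p, ρ X (tm k A Y p) = tm k A (X.comm Y) p
  on_we : ∀ X p q, ρ X (we k A p q) = 0

end Bracket

section Chains

variable (k : Type*) {L : Type*} [Field k] [AddCommGroup L] [Module k L]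

/-- `x ∧ a` for `x ∈ L` and a chain `a`. -/
def wdg (x : L) (a : ExteriorAlgebra k L) : ExteriorAlgebra k L := ExteriorAlgebra.ι k x * a

/-- `D` is the derivation of the exterior algebra of `L` extending the linear map `T`. -/
structure IsDerExt (T : L → L) (D : ExteriorAlgebra k L → ExteriorAlgebra k L) : Prop where
  lin : IsLin k D
  one : D 1 = 0
  wdg : ∀ x a, D (wdg k x a) = wdg k (T x) a + wdg k x (D a)

/-- `d` is the Chevalley–Eilenberg differential (trivial coefficients) of the Lie algebra `L` with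
bracket `br`: `d (x ∧ a) = x · a - x ∧ d a`, where `θ x = x ·` is the action of `x` on the exterior
algebra by derivations. -/
structure IsCE (br : L → L → L) (θ : L → ExteriorAlgebra k L → ExteriorAlgebra k L)
    (d : ExteriorAlgebra k L → ExteriorAlgebra k L) : Prop where
  isDerExt : ∀ x, IsDerExt k (br x) (θ x)
  lin : IsLin k d
  one : d 1 = 0
  wdg : ∀ x a, d (wdg k x a) = θ x a - wdg k x (d a)

/-- `z` is an `m`-boundary. -/
def IsBdry (d : ExteriorAlgebra k L → ExteriorAlgebra k L) (m : ℕ) (z : ExteriorAlgebra k L) :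
    Prop :=
  ∃ y ∈ ⋀[k]^(m + 1) L, d y = z

variable (d : ExteriorAlgebra k L → ExteriorAlgebra k L)
  (σ : S3 k → ExteriorAlgebra k L → ExteriorAlgebra k L)

/-- `H_m` contains a nonzero vector killed by `sl₃`, that is, a trivial component. -/
def HasTrivial (m : ℕ) : Prop :=
  ∃ z ∈ ⋀[k]^m L, d z = 0 ∧ ¬ IsBdry k d m z ∧ ∀ X, IsBdry k d m (σ X z)

/-- There is a nonzero `sl₃`-equivariant map from `sl₃` to `H_m`, that is, an adjoint component. -/
def HasAdjoint (m : ℕ) : Prop :=
  ∃ φ : S3 k → ExteriorAlgebra k L, IsLin k φ ∧ (∀ Y, φ Y ∈ ⋀[k]^m L ∧ d (φ Y) = 0) ∧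
    (∃ Y, ¬ IsBdry k d m (φ Y)) ∧ ∀ X Y, IsBdry k d m (σ X (φ Y) - φ (X.comm Y))

end Chains

/-- For some `m` with `2 ≤ m ≤ 9` the homology `H_m(ABG(A), k)` contains a trivial or an adjoint
`sl₃`-component. Here `br` is the bracket of `ABG(A)`, `θ` its adjoint action on the chains, `d` the
Chevalley–Eilenberg differential, `ρ` the action of `sl₃` on `ABG(A)` and `σ` its extension to the
chains; they are determined by the stated conditions. -/
def SomeTrivialOrAdjoint (k A : Type*) [Field k] [CharZero k] [NonUnitalNonAssocRing A]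
    [Module k A] : Prop :=
  ∃ (br : AbgLie k A → AbgLie k A → AbgLie k A)
    (θ : AbgLie k A → ExteriorAlgebra k (AbgLie k A) → ExteriorAlgebra k (AbgLie k A))
    (d : ExteriorAlgebra k (AbgLie k A) → ExteriorAlgebra k (AbgLie k A))
    (ρ : S3 k → AbgLie k A → AbgLie k A)
    (σ : S3 k → ExteriorAlgebra k (AbgLie k A) → ExteriorAlgebra k (AbgLie k A)) (m : ℕ),
    IsAbgBracket k A br ∧ IsCE k br θ d ∧ IsSlAct k A ρ ∧ (∀ X, IsDerExt k (ρ X) (σ X)) ∧
      2 ≤ m ∧ m ≤ 9 ∧ (HasTrivial k d σ m ∨ HasAdjoint k d σ m)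

section Proof

variable (k A : Type*) [Field k] [CharZero k] [NonUnitalNonAssocRing A] [Module k A]
  [IsScalarTower k A A] [SMulCommClass k A A] [Fact (IsAlt A)]

theorem isAbgBracket : IsAbgBracket k A (fun x y => ⁅x, y⁆) where
  bilin := ⟨fun y => ⟨fun a b => add_lie a b y, fun c a => smul_lie c a y⟩,
    fun x => ⟨fun a b => lie_add x a b, fun c a => lie_smul c x a⟩⟩
  alternating x := lie_self x
  jacobi x y z := leibniz_lie x y z
  tm_tm X Y p q := by
    have h : IsAlt A := Fact.out
    apply AbgLie.ext'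
    · change b1 k A (X ⊗ₜ p) (Y ⊗ₜ q) + act h 0 (Y ⊗ₜ q) - act h 0 (X ⊗ₜ p) =
        (X.comm Y) ⊗ₜ[k] (jor k A p q) + (X.anti Y) ⊗ₜ[k] (p * q - q * p)
          + trd k X Y • (0 : S3 k ⊗[k] A)
      rw [b1_tmul, map_zero, smul_zero]
      simp only [LinearMap.zero_apply, add_zero, sub_zero]
      rfl
    · change b2 k A (X ⊗ₜ p) (Y ⊗ₜ q) + b3 h 0 0 = 0 + 0 + trd k X Y • wd k A p q
      rw [b2_tmul]
      simp only [map_zero, add_zero, zero_add]
      rfl
  we_tm p q X r := by
    have h : IsAlt A := Fact.out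
    apply AbgLie.ext'
    · change b1 k A 0 (X ⊗ₜ r) + act h (wd k A p q) (X ⊗ₜ r) - act h 0 0 = X ⊗ₜ[k] dd p q r
      rw [map_zero, map_zero, LinearMap.zero_apply, sub_zero, zero_add, act_tmul]
      rfl
    · change b2 k A 0 (X ⊗ₜ r) + b3 h (wd k A p q) 0 = 0
      rw [map_zero, map_zero, LinearMap.zero_apply, zero_add]
  we_we p q r s := by
    have h : IsAlt A := Fact.out
    apply AbgLie.ext'
    · change b1 k A 0 0 + act h (wd k A p q) 0 - act h (wd k A r s) 0 = 0 + 0
      simp only [map_zero, add_zero, sub_zero]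
    · change b2 k A 0 0 + b3 h (wd k A p q) (wd k A r s) = wd k A (dd p q r) s + wd k A r (dd p q s)
      rw [map_zero, zero_add, b3_apply, derB_wd]
      rfl

theorem isDerExt {L : Type*} [AddCommGroup L] [Module k L] (T : Module.End k L) :
    IsDerExt k T (der T) where
  lin := ⟨map_add _, map_smul _⟩
  one := der_one T
  wdg x a := der_ι_mul T x a

theorem isCE {L : Type*} [LieRing L] [LieAlgebra k L] :
    IsCE k (fun x y : L => ⁅x, y⁆) (fun x => theta x) bd where
  isDerExt x := isDerExt k (LieModule.toEnd k L L x)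
  lin := ⟨map_add _, map_smul _⟩
  one := bd_one
  wdg x a := bd_ι_mul x a

theorem isSlAct : IsSlAct k A (fun X => glL X.1) where
  lin X := ⟨map_add _, map_smul _⟩
  on_tm X Y p := rfl
  on_we X p q := by
    apply AbgLie.ext'
    · change glT X.1 0 = 0
      rw [map_zero]
    · rfl

theorem main (h : ¬ ((∀ m, 2 ≤ m → m ≤ 9 → GrData.NoTriv k A m) ∧
    (∀ m, 2 ≤ m → m ≤ 9 → GrData.NoAdj k A m))) : SomeTrivialOrAdjoint k A := by
  have key : ∃ m : ℕ, 2 ≤ m ∧ m ≤ 9 ∧
      (HasTrivial k (bd (k := k) (L := AbgLie k A)) (fun X => der (glL X.1)) m ∨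
        HasAdjoint k (bd (k := k) (L := AbgLie k A)) (fun X => der (glL X.1)) m) := by
    by_contra hcon
    push Not at hcon
    apply h
    constructor
    · intro m h2 h9 z hz hbz hX
      by_contra hz'
      exact (hcon m h2 h9).1 ⟨z, hz, hbz, hz', hX⟩
    · intro m h2 h9 φ hφ hbφ hX
      by_contra hφ'
      exact (hcon m h2 h9).2 ⟨φ, ⟨map_add φ, map_smul φ⟩, fun Y => ⟨hφ Y, hbφ Y⟩,
        not_forall.1 hφ', hX⟩
  obtain ⟨m, h2, h9, hm⟩ := key
  exact ⟨_, _, _, _, _, m, isAbgBracket k A, isCE k, isSlAct k A,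
    fun X => isDerExt k (glL X.1), h2, h9, hm⟩

end Proof

/-- For every field `k` of characteristic zero and `V = k⁴` there is `m` with `2 ≤ m ≤ 9` such that
`H_m(ABG(Alt(V)), k)` contains a trivial or an adjoint `sl₃`-component. -/
theorem result (k : Type*) [Field k] [CharZero k] :
    SomeTrivialOrAdjoint k (FreeAlt k (Fin 4)) :=
  main k _ FreeAlt.key

end Pool.Agent.Results.MP_894cc0_al.TrivialOrAdjoint
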